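import Mathlib
import Pool.Agent.W422.GC.Up
import Pool.Agent.W422.GC.Tw

/-!
# The twisted topological zeta functions of polynomials with very general coefficients

Let `v_1, …, v_r ∈ ℕ ^ N` be non-zero and pairwise distinct, otherwise arbitrary, let `F` be a
subfield of `ℂ`, `a_1, …, a_r` algebraically independent over `F` and `h ∈ F[x]` arbitrary with
exponents in the Newton polyhedron (convex hull) of the `v_j`. For
`f = ∑_j a_j x ^ (v j) + h` and `e ≥ 1`, the product `b(s) Z^(e)(s)` is a polynomial in `s` for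
every `b ∈ ℂ[s]` of a functional equation `b(s) f ^ s = P(s) f ^ (s + 1)`, in particular for
`b = b_f`, and for `e ≥ 2` this polynomial is divisible by `s + 1`. So every pole of `Z^(e)` is a
root of `b_f` (of the reduced Bernstein-Sato polynomial if `e ≥ 2`), of at least the same order.
-/

set_option autoImplicit false

namespace Pool.Agent.Results.MP_b22d1f_ag.GenericTwisted

open Polynomial Pool.Agent.H628R4.TZ Pool.Agent.H628R4.TP Pool.Agent.W425.SM

/-- The twisted topological zeta function `Z^(e)` of a Newton nondegenerate polynomial `f` whose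
Newton polyhedron has its vertices among the `v j`, on the toric embedded resolution `X_R` given by
the fan `R`. The components of `h⁻¹(X_0)` are the divisors `E_ρ` of the rays `ρ` with `ord ρ > 0`
(multiplicities `N = ord ρ`, `ν = |ρ|`) and the strict transform `H` of `{f = 0}` (multiplicities
`N = 1`, `ν = 1`). For a cone `σ` the torus orbit `O_σ` minus `H`, of Euler characteristic
`chiO σ - chiG v R σ`, belongs to the stratum of the set of the rays of `σ` with `ord ρ > 0` (which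
has to be non-empty), and `O_σ ∩ H`, of Euler characteristic `chiG v R σ`, to the stratum of this
set together with `H`; the strata with a multiplicity not divisible by `e` are left out.
Here `chiG v R σ = (-1) ^ (N - dim σ + 1) (N - dim σ)! Vol (conv (v j, j minimal on σ))` for
`dim σ < N` (the volume in the affine span of dimension `N - dim σ`, normalised by its lattice). -/
noncomputable def topZetaTwistedG {r N : ℕ} (v : Fin r → Fin N → ℕ) (R : SmoothFan N) (e : ℕ) :
    RatFunc ℂ :=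
  open Classical in
  ∑ σ ∈ R.cones.filter (fun σ => ∀ ρ ∈ σ, e ∣ ordAlong v ρ),
    ((if ∃ ρ ∈ σ, ordAlong v ρ ≠ 0 then
        RatFunc.C (((chiO σ : ℝ) - Pool.Agent.W422.GC.chiG v R σ : ℝ) : ℂ) else 0) +
      (if e ∣ 1 then RatFunc.C ((Pool.Agent.W422.GC.chiG v R σ : ℝ) : ℂ) * (RatFunc.X + 1)⁻¹
        else 0)) *
    ∏ ρ ∈ σ, ((ordAlong v ρ : RatFunc ℂ) * RatFunc.X + ((∑ l, ρ l : ℕ) : RatFunc ℂ))⁻¹

lemma twisted_two {r N : ℕ} (v : Fin r → Fin N → ℕ) (R : SmoothFan N) (e : ℕ) (he : 2 ≤ e) :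
    topZetaTwistedG v R e = Pool.Agent.W422.GC.Tw.twG v R e 1 := by
  classical
  have h1 : ¬ e ∣ 1 := fun h => by have := Nat.le_of_dvd one_pos h; omega
  unfold topZetaTwistedG Pool.Agent.W422.GC.Tw.twG
  rw [Finset.sum_filter, Finset.sum_filter]
  refine Finset.sum_congr rfl fun σ _ => ?_
  rw [if_neg h1, add_zero]
  have hI : Pool.Agent.W425.SM.Inc (1 : ℝ) σ := Or.inl one_pos
  by_cases h2 : ∀ ρ ∈ σ, e ∣ ordAlong v ρ
  · by_cases h3 : ∃ ρ ∈ σ, ordAlong v ρ ≠ 0
    · rw [if_pos h2, if_pos h3, if_pos ⟨hI, h3, h2⟩]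
    · rw [if_pos h2, if_neg h3, if_neg (fun h => h3 h.2.1), zero_mul]
  · rw [if_neg h2, if_neg (fun h => h2 h.2.2)]

lemma twisted_one {r N : ℕ} [NeZero r] (v : Fin r → Fin N → ℕ) (hv0 : ∀ j, v j ≠ 0)
    (R : SmoothFan N) (hR : Principal v R) :
    ∃ c : ℂ, topZetaTwistedG v R 1 =
      Pool.Agent.W422.GC.topZetaG v R + algebraMap ℂ[X] (RatFunc ℂ) (C c) := by
  classical
  refine ⟨∑ σ ∈ R.cones, if ∃ ρ ∈ σ, ordAlong v ρ ≠ 0 then 0 else
    ((Pool.Agent.W422.GC.chiG v R σ : ℝ) : ℂ) * ∏ ρ ∈ σ, (((∑ l, ρ l : ℕ) : ℂ))⁻¹, ?_⟩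
  rw [map_sum, map_sum]
  unfold topZetaTwistedG Pool.Agent.W422.GC.topZetaG
  rw [Finset.filter_true_of_mem fun σ _ ρ _ => one_dvd _, ← Finset.sum_add_distrib]
  refine Finset.sum_congr rfl fun σ hσ => ?_
  rw [if_pos (one_dvd 1)]
  by_cases h : ∃ ρ ∈ σ, ordAlong v ρ ≠ 0
  · rw [if_pos h, if_pos h, C_0, map_zero, add_zero]
  · rw [if_neg h, if_neg h]
    have hN : σ.card ≠ N := fun hc => h (full_ord v hv0 R hR σ hσ hc)
    have h2 : ∏ ρ ∈ σ, ((ordAlong v ρ : RatFunc ℂ) * RatFunc.X +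
        ((∑ l, ρ l : ℕ) : RatFunc ℂ))⁻¹ = algebraMap ℂ[X] (RatFunc ℂ)
        (C (∏ ρ ∈ σ, (((∑ l, ρ l : ℕ) : ℂ))⁻¹)) := by
      rw [map_prod, map_prod]
      refine Finset.prod_congr rfl fun ρ hρ => ?_
      have h3 : ordAlong v ρ = 0 := by
        by_contra hcon
        exact h ⟨ρ, hρ, hcon⟩
      have h4 : ((∑ l, ρ l : ℕ) : ℂ) ≠ 0 := by
        have := ray_sum_pos R σ hσ ρ hρ
        exact_mod_cast this.ne'
      rw [h3, Nat.cast_zero, zero_mul, zero_add]
      refine inv_eq_of_mul_eq_one_left ?_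
      have h5 : ((∑ l, ρ l : ℕ) : RatFunc ℂ) =
          algebraMap ℂ[X] (RatFunc ℂ) (C ((∑ l, ρ l : ℕ) : ℂ)) := by
        rw [map_natCast, map_natCast]
      rw [h5, ← map_mul, ← C_mul, inv_mul_cancel₀ h4, C_1, map_one]
    rw [h2, C_mul, map_mul, chiO, if_neg hN, ← RatFunc.algebraMap_C, ← RatFunc.algebraMap_C]
    push_cast
    rw [zero_sub, C_neg, map_neg]
    ring

/-- **The strong monodromy conjecture for the twisted topological zeta functions of polynomials
with arbitrary Newton polyhedron and very general vertex coefficients, with multiplicities.**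
`IsBFunction f b` says that `b(s) f ^ s = P(s) f ^ (s + 1)` for a differential operator `P(s)`; the
Bernstein-Sato polynomial `b_f` is by definition the monic polynomial `b` of this kind of least
degree. `Hull v w`: `w` is in the Newton polyhedron of the `v j`. `R` is any smooth fan with
support the positive orthant on which the ideal `(x ^ (v j))_j` becomes principal. -/
theorem result {F : Type} [Field F] [Algebra F ℂ] {r N : ℕ}
    (hr : 1 ≤ r) (v : Fin r → Fin N → ℕ) (a : Fin r → ℂ)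
    (hv : Function.Injective v) (hv0 : ∀ j, v j ≠ 0) (ha : AlgebraicIndependent F a)
    (h : MvPolynomial (Fin N) F) (hh : ∀ w ∈ h.support, Pool.Agent.W425.SV.Hull v w)
    (R : SmoothFan N) (hR : Principal v R) (b : ℂ[X])
    (hb : IsBFunction (sparse v a + MvPolynomial.map (algebraMap F ℂ) h) b)
    (e : ℕ) (he : 1 ≤ e) :
    (∃ P : ℂ[X], algebraMap ℂ[X] (RatFunc ℂ) b * topZetaTwistedG v R e =
      algebraMap ℂ[X] (RatFunc ℂ) P) ∧
    (2 ≤ e → ∃ P : ℂ[X], algebraMap ℂ[X] (RatFunc ℂ) b * topZetaTwistedG v R e =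
      algebraMap ℂ[X] (RatFunc ℂ) ((X + 1) * P)) := by
  have : NeZero r := ⟨by omega⟩
  have h2 : 2 ≤ e → ∃ P : ℂ[X], algebraMap ℂ[X] (RatFunc ℂ) b * topZetaTwistedG v R e =
      algebraMap ℂ[X] (RatFunc ℂ) ((X + 1) * P) := by
    intro he2
    by_cases hb0 : b = 0
    · exact ⟨0, by rw [hb0, map_zero, zero_mul, mul_zero, map_zero]⟩
    obtain ⟨θ, hθ⟩ := Pool.Agent.W422.GC.exists_heights r
    obtain ⟨p, q, rfl, hp⟩ := Pool.Agent.W422.GC.rel_of_unit False ⊥ (fun g hg => by
        rw [Submonoid.mem_bot] at hg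
        exact ⟨by rw [hg, map_one], fun _ => hg⟩) v a hv hv0 ha h (fun w hw => by
        obtain ⟨l, h1, h2, h3⟩ := hh w hw
        exact ⟨l, h1, h2, fun i => (h3 i).le⟩) θ hθ b hb0
      ((Pool.Agent.W591.GC.J_bot _ b).2 hb)
    obtain ⟨P, hP⟩ := Pool.Agent.W422.GC.Tw.main_tw v hv θ hθ False R hR e he2 1 one_ne_zero
      (fun h => h.elim) p hp
    refine ⟨P * q, ?_⟩
    rw [twisted_two v R e he2, map_mul, map_mul, mul_right_comm, mul_assoc, mul_assoc, ← mul_assoc
      (algebraMap ℂ[X] (RatFunc ℂ) p), hP, map_mul, map_mul]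
  refine ⟨?_, h2⟩
  rcases Nat.lt_or_ge e 2 with h' | h'
  · obtain rfl : e = 1 := by omega
    obtain ⟨P, hP⟩ := Pool.Agent.W422.GC.finalGlobalC hr v a hv hv0 ha h hh R hR b hb
    obtain ⟨c, hc⟩ := twisted_one v hv0 R hR
    refine ⟨P + b * C c, ?_⟩
    rw [hc, mul_add, hP, map_add, map_mul]
  · obtain ⟨P, hP⟩ := h2 h'
    exact ⟨_, hP⟩

end Pool.Agent.Results.MP_b22d1f_ag.GenericTwisted
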