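import Mathlib
import Pool.Agent.W425.ND.Tw

/-!
# The twisted topological zeta functions of all Newton-nondegenerate polynomials

Let `f = ∑_j a_j x ^ (v j)`, `f(0) = 0`, be a polynomial in any number of variables which is
nondegenerate with respect to its Newton polytope (for every face of the polytope, the face
polynomial and its derivatives have no common zero in the torus), and let `e ≥ 1`. Then every pole
`s0` of the twisted topological zeta function `Z^(e)` of `f` satisfies `b_f(s0 - i) = 0` for some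
natural number `i`. By the theorem of Malgrange and Kashiwara, `exp(2 π i s0)` is an eigenvalue of
the monodromy of `f` at some point of `{f = 0}`.

Method: the functional equation of `f` is extended to the family of all polynomials with the given
exponents (the modules of the sequences `s ↦ s (s - 1) ⋯ (s - m + 1) x ^ c f ^ (s - m)`, `c` in `m`
times the Newton polytope, are finitely generated over `ℂ⟦τ⟧[s, θ]` by Kouchnirenko's theorem and
carry a connection); the functional equation with very general coefficients, with derivatives in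
the coefficients allowed, gives the pole part of `Z^(e)`.
-/

set_option autoImplicit false

namespace Pool.Agent.Results.MP_b22d1f_ag.NondegenerateTwisted

open Polynomial Pool.Agent.H628R4.TZ Pool.Agent.H628R4.TP Pool.Agent.W425.SM Pool.Agent.W425.ND

/-- The twisted topological zeta function `Z^(e)` of a Newton nondegenerate polynomial `f` whose
Newton polyhedron has its vertices among the `v j`, on the toric embedded resolution `X_R` given by
the fan `R`. The components of `h⁻¹(X_0)` are the divisors `E_ρ` of the rays `ρ` with `ord ρ > 0`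
(multiplicities `N = ord ρ`, `ν = |ρ|`) and the strict transform `H` of `{f = 0}` (multiplicities
`N = 1`, `ν = 1`). For a cone `σ` the torus orbit `O_σ` minus `H`, of Euler characteristic
`chiO σ - chiG v R σ`, belongs to the stratum of the set of the rays of `σ` with `ord ρ > 0` (which
has to be non-empty), and `O_σ ∩ H`, of Euler characteristic `chiG v R σ`, to the stratum of this
set together with `H`; the strata with a multiplicity not divisible by `e` are left out.
Here `chiG v R σ = (-1) ^ (N - dim σ + 1) (N - dim σ)! Vol (conv (v j, j minimal on σ))` for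
`dim σ < N` (the volume in the affine span of dimension `N - dim σ`, normalised by its lattice). -/
noncomputable def topZetaTwistedG {r N : ℕ} (v : Fin r → Fin N → ℕ) (R : SmoothFan N) (e : ℕ) :
    RatFunc ℂ :=
  open Classical in
  ∑ σ ∈ R.cones.filter (fun σ => ∀ ρ ∈ σ, e ∣ ordAlong v ρ),
    ((if ∃ ρ ∈ σ, ordAlong v ρ ≠ 0 then
        RatFunc.C (((chiO σ : ℝ) - Pool.Agent.W422.GC.chiG v R σ : ℝ) : ℂ) else 0) +
      (if e ∣ 1 then RatFunc.C ((Pool.Agent.W422.GC.chiG v R σ : ℝ) : ℂ) * (RatFunc.X + 1)⁻¹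
        else 0)) *
    ∏ ρ ∈ σ, ((ordAlong v ρ : RatFunc ℂ) * RatFunc.X + ((∑ l, ρ l : ℕ) : RatFunc ℂ))⁻¹

lemma twisted_two {r N : ℕ} (v : Fin r → Fin N → ℕ) (R : SmoothFan N) (e : ℕ) (he : 2 ≤ e) :
    topZetaTwistedG v R e = Pool.Agent.W422.GC.Tw.twG v R e 1 := by
  classical
  have h1 : ¬ e ∣ 1 := fun h => by have := Nat.le_of_dvd one_pos h; omega
  unfold topZetaTwistedG Pool.Agent.W422.GC.Tw.twG
  rw [Finset.sum_filter, Finset.sum_filter]
  refine Finset.sum_congr rfl fun σ _ => ?_
  rw [if_neg h1, add_zero]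
  have hI : Pool.Agent.W425.SM.Inc (1 : ℝ) σ := Or.inl one_pos
  by_cases h2 : ∀ ρ ∈ σ, e ∣ ordAlong v ρ
  · by_cases h3 : ∃ ρ ∈ σ, ordAlong v ρ ≠ 0
    · rw [if_pos h2, if_pos h3, if_pos ⟨hI, h3, h2⟩]
    · rw [if_pos h2, if_neg h3, if_neg (fun h => h3 h.2.1), zero_mul]
  · rw [if_neg h2, if_neg (fun h => h2 h.2.2)]

lemma twisted_one {r N : ℕ} [NeZero r] (v : Fin r → Fin N → ℕ) (hv0 : ∀ j, v j ≠ 0)
    (R : SmoothFan N) (hR : Principal v R) :
    ∃ c : ℂ, topZetaTwistedG v R 1 =
      Pool.Agent.W422.GC.topZetaG v R + algebraMap ℂ[X] (RatFunc ℂ) (C c) := by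
  classical
  refine ⟨∑ σ ∈ R.cones, if ∃ ρ ∈ σ, ordAlong v ρ ≠ 0 then 0 else
    ((Pool.Agent.W422.GC.chiG v R σ : ℝ) : ℂ) * ∏ ρ ∈ σ, (((∑ l, ρ l : ℕ) : ℂ))⁻¹, ?_⟩
  rw [map_sum, map_sum]
  unfold topZetaTwistedG Pool.Agent.W422.GC.topZetaG
  rw [Finset.filter_true_of_mem fun σ _ ρ _ => one_dvd _, ← Finset.sum_add_distrib]
  refine Finset.sum_congr rfl fun σ hσ => ?_
  rw [if_pos (one_dvd 1)]
  by_cases h : ∃ ρ ∈ σ, ordAlong v ρ ≠ 0
  · rw [if_pos h, if_pos h, C_0, map_zero, add_zero]
  · rw [if_neg h, if_neg h]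
    have hN : σ.card ≠ N := fun hc => h (full_ord v hv0 R hR σ hσ hc)
    have h2 : ∏ ρ ∈ σ, ((ordAlong v ρ : RatFunc ℂ) * RatFunc.X +
        ((∑ l, ρ l : ℕ) : RatFunc ℂ))⁻¹ = algebraMap ℂ[X] (RatFunc ℂ)
        (C (∏ ρ ∈ σ, (((∑ l, ρ l : ℕ) : ℂ))⁻¹)) := by
      rw [map_prod, map_prod]
      refine Finset.prod_congr rfl fun ρ hρ => ?_
      have h3 : ordAlong v ρ = 0 := by
        by_contra hcon
        exact h ⟨ρ, hρ, hcon⟩
      have h4 : ((∑ l, ρ l : ℕ) : ℂ) ≠ 0 := by
        have := ray_sum_pos R σ hσ ρ hρ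
        exact_mod_cast this.ne'
      rw [h3, Nat.cast_zero, zero_mul, zero_add]
      refine inv_eq_of_mul_eq_one_left ?_
      have h5 : ((∑ l, ρ l : ℕ) : RatFunc ℂ) =
          algebraMap ℂ[X] (RatFunc ℂ) (C ((∑ l, ρ l : ℕ) : ℂ)) := by
        rw [map_natCast, map_natCast]
      rw [h5, ← map_mul, ← C_mul, inv_mul_cancel₀ h4, C_1, map_one]
    rw [h2, C_mul, map_mul, chiO, if_neg hN, ← RatFunc.algebraMap_C, ← RatFunc.algebraMap_C]
    push_cast
    rw [zero_sub, C_neg, map_neg]
    ring

/-- **The monodromy conjecture for the twisted topological zeta functions of every polynomial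
`f = ∑_j a_j x ^ (v j)`, `f(0) = 0`, which is nondegenerate with respect to its Newton polytope.**

`Nondeg v a` says that for every face of the convex hull of the `v j` (the face where the linear
form `w ∈ ℝ ^ N` is minimal, `w = 0` included) the face polynomial of `f` and its logarithmic
derivatives `x_i ∂_i` have no common zero in `(ℂ \ 0) ^ N`. `IsBFunction f b` says that
`b(s) f ^ s = P(s) f ^ (s + 1)` for a differential operator `P(s)` in the Weyl algebra, polynomial
in `s`; for example `b = b_f`, the Bernstein-Sato polynomial. `R` is any smooth fan with support the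
positive orthant on which the ideal `(x ^ (v j))_j` becomes principal.

First assertion: `(s + 1) b(s) b(s - 1) ⋯ b(s - K) Z^(e)(s)` is a polynomial for some `K`
(independent of `e`), even without the factor `s + 1` if `e ≥ 2`. Second assertion: for every pole
`s0` of `Z^(e)` there is `i ∈ ℕ` with `b(s0 - i) = 0`. -/
theorem result {r N : ℕ} (hr : 1 ≤ r) (v : Fin r → Fin N → ℕ) (a : Fin r → ℂ)
    (hv : Function.Injective v) (hv0 : ∀ j, v j ≠ 0) (hnd : Nondeg v a) (R : SmoothFan N)
    (hR : Principal v R) (b : ℂ[X]) (hb0 : b ≠ 0) (hb : IsBFunction (sparse v a) b) :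
    (∃ K : ℕ, ∀ e : ℕ, 1 ≤ e → ∃ P : ℂ[X], algebraMap ℂ[X] (RatFunc ℂ)
      ((if e = 1 then X + 1 else 1) * ∏ i ∈ Finset.range (K + 1), b.comp (X - C (i : ℂ))) *
        topZetaTwistedG v R e = algebraMap ℂ[X] (RatFunc ℂ) P) ∧
    ∀ e : ℕ, 1 ≤ e → ∀ s0 : ℂ, (topZetaTwistedG v R e).denom.eval s0 = 0 →
      ∃ i : ℕ, b.eval (s0 - i) = 0 := by
  have : NeZero r := ⟨by omega⟩
  have h1 : b.eval (-1) = 0 := (global_of parts hr v a hv hv0 hnd R hR b hb).1
  obtain ⟨K, θ, hθ, hV⟩ := rel_of parts False v a hv hnd b (unitEq_of_global _ _ hb)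
  have key : ∀ e : ℕ, 1 ≤ e → ∃ P : ℂ[X], algebraMap ℂ[X] (RatFunc ℂ)
      ((if e = 1 then X + 1 else 1) * ∏ i ∈ Finset.range (K + 1), b.comp (X - C (i : ℂ))) *
        topZetaTwistedG v R e = algebraMap ℂ[X] (RatFunc ℂ) P := by
    intro e he
    rcases Nat.lt_or_ge e 2 with h' | h'
    · obtain rfl : e = 1 := by omega
      obtain ⟨P, hP⟩ := Pool.Agent.W425.SV.mainV_rel v hv hv0 θ hθ False R hR 1 one_ne_zero
        (fun h => h.elim) _ hV
      rw [← Pool.Agent.W422.GC.topZG_eq v θ hθ, Pool.Agent.W422.GC.topZG_one] at hP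
      obtain ⟨c, hc⟩ := twisted_one v hv0 R hR
      refine ⟨P + ((X + 1) * prodb b K) * C c, ?_⟩
      rw [if_pos rfl, hc, mul_add, map_add, map_mul _ (_ * _) (C c), ← hP]
      rfl
    · obtain ⟨P, hP⟩ := Pool.Agent.W422.GC.Tw.main_tw v hv θ hθ False R hR e h' 1 one_ne_zero
        (fun h => h.elim) _ hV
      refine ⟨P, ?_⟩
      rw [if_neg (by omega), one_mul, twisted_two v R e h']
      exact hP
  refine ⟨⟨K, key⟩, fun e he s0 hs => ?_⟩
  obtain ⟨P, hP⟩ := key e he
  by_cases h : e = 1
  · rw [if_pos h] at hP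
    exact pole_of b hb0 h1 _ K P hP s0 hs
  · rw [if_neg h, one_mul] at hP
    refine pole_of b hb0 h1 _ K ((X + 1) * P) ?_ s0 hs
    rw [map_mul, mul_assoc, hP, map_mul]

end Pool.Agent.Results.MP_b22d1f_ag.NondegenerateTwisted
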