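import Mathlib
import Pool.Agent.W30.TW.Ker

/-!
# The twisted topological zeta functions of sparse polynomials with affinely independent exponents

Let `f = ∑_j a_j x ^ (v j)` (`r ≥ 2` terms, `N` variables, all `a_j ≠ 0`, no constant term) with
affinely independent exponents `v j`, and let `e ≥ 1`. Then `b_f(s) Z^(e)(s)` is a polynomial in
`s`, where `Z^(e)` is the twisted topological zeta function of `f`; for `e ≥ 2` already
`b_f(s) / (s + 1) * Z^(e)(s)` is a polynomial. In particular every pole of `Z^(e)` is a root of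
`b_f` (of the reduced Bernstein-Sato polynomial if `e ≥ 2`), of at least the same order.
-/

set_option autoImplicit false

namespace Pool.Agent.Results.MP_b22d1f_ag.SparseTwisted

open Polynomial Pool.Agent.H628R4.TZ Pool.Agent.H628R4.TP Pool.Agent.W425.SM

/-- The twisted topological zeta function `Z^(e)` of `f = ∑_j a_j x ^ (v j)` on the toric embedded
resolution `X_R` given by the fan `R`. The components of `h⁻¹(X_0)` are the divisors `E_ρ` of the
rays `ρ` with `ord ρ > 0` (multiplicities `N = ord ρ`, `ν = |ρ|`) and the strict transform `H` of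
`{f = 0}` (multiplicities `N = 1`, `ν = 1`). For a cone `σ` the torus orbit `O_σ` minus `H`, of
Euler characteristic `chiO σ - chiH v σ`, belongs to the stratum of the set of the rays of `σ` with
`ord ρ > 0` (which has to be non-empty), and `O_σ ∩ H`, of Euler characteristic `chiH v σ`, to the
stratum of this set together with `H`; the strata with a multiplicity not divisible by `e` are left
out. -/
noncomputable def topZetaTwisted {r N : ℕ} (v : Fin r → Fin N → ℕ) (R : SmoothFan N) (e : ℕ) :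
    RatFunc ℂ :=
  open Classical in
  ∑ σ ∈ R.cones.filter (fun σ => ∀ ρ ∈ σ, e ∣ ordAlong v ρ),
    ((if ∃ ρ ∈ σ, ordAlong v ρ ≠ 0 then ((chiO σ - chiH v σ : ℤ) : RatFunc ℂ) else 0) +
      (if e ∣ 1 then ((chiH v σ : ℤ) : RatFunc ℂ) * (RatFunc.X + 1)⁻¹ else 0)) *
    ∏ ρ ∈ σ, ((ordAlong v ρ : RatFunc ℂ) * RatFunc.X + ((∑ l, ρ l : ℕ) : RatFunc ℂ))⁻¹

lemma twisted_two {r N : ℕ} (v : Fin r → Fin N → ℕ) (R : SmoothFan N) (e : ℕ) (he : 2 ≤ e) :
    topZetaTwisted v R e = Pool.Agent.W30.TW.twZ v R e := by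
  classical
  have h1 : ¬ e ∣ 1 := fun h => by have := Nat.le_of_dvd one_pos h; omega
  unfold topZetaTwisted Pool.Agent.W30.TW.twZ
  rw [Finset.sum_filter, Finset.sum_filter]
  refine Finset.sum_congr rfl fun σ _ => ?_
  rw [if_neg h1, add_zero]
  by_cases h2 : ∀ ρ ∈ σ, e ∣ ordAlong v ρ
  · by_cases h3 : ∃ ρ ∈ σ, ordAlong v ρ ≠ 0
    · rw [if_pos h2, if_pos h3, if_pos ⟨h3, h2⟩]
    · rw [if_pos h2, if_neg h3, if_neg (fun h => h3 h.1), zero_mul]
  · rw [if_neg h2, if_neg (fun h => h2 h.2)]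

lemma twisted_one {r N : ℕ} [NeZero r] (v : Fin r → Fin N → ℕ) (hv0 : ∀ j, v j ≠ 0)
    (R : SmoothFan N) (hR : Principal v R) :
    ∃ c : ℂ, topZetaTwisted v R 1 = topZetaSparse v R + algebraMap ℂ[X] (RatFunc ℂ) (C c) := by
  classical
  refine ⟨∑ σ ∈ R.cones, if ∃ ρ ∈ σ, ordAlong v ρ ≠ 0 then 0 else
    ((chiH v σ : ℤ) : ℂ) * ∏ ρ ∈ σ, (((∑ l, ρ l : ℕ) : ℂ))⁻¹, ?_⟩
  rw [map_sum, map_sum]
  unfold topZetaTwisted topZetaSparse
  rw [Finset.filter_true_of_mem fun σ _ ρ _ => one_dvd _, ← Finset.sum_add_distrib]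
  refine Finset.sum_congr rfl fun σ hσ => ?_
  rw [if_pos (one_dvd 1)]
  by_cases h : ∃ ρ ∈ σ, ordAlong v ρ ≠ 0
  · rw [if_pos h, if_pos h, C_0, map_zero, add_zero]
  · rw [if_neg h, if_neg h]
    have hN : σ.card ≠ N := fun hc => h (full_ord v hv0 R hR σ hσ hc)
    have h2 : ∏ ρ ∈ σ, ((ordAlong v ρ : RatFunc ℂ) * RatFunc.X +
        ((∑ l, ρ l : ℕ) : RatFunc ℂ))⁻¹ = algebraMap ℂ[X] (RatFunc ℂ)
        (C (∏ ρ ∈ σ, (((∑ l, ρ l : ℕ) : ℂ))⁻¹)) := by
      rw [map_prod, map_prod]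
      refine Finset.prod_congr rfl fun ρ hρ => ?_
      have h3 : ordAlong v ρ = 0 := by
        by_contra hcon
        exact h ⟨ρ, hρ, hcon⟩
      have h4 : ((∑ l, ρ l : ℕ) : ℂ) ≠ 0 := by
        have := ray_sum_pos R σ hσ ρ hρ
        exact_mod_cast this.ne'
      rw [h3, Nat.cast_zero, zero_mul, zero_add]
      refine inv_eq_of_mul_eq_one_left ?_
      have h5 : ((∑ l, ρ l : ℕ) : RatFunc ℂ) =
          algebraMap ℂ[X] (RatFunc ℂ) (C ((∑ l, ρ l : ℕ) : ℂ)) := by
        rw [map_natCast, map_natCast]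
      rw [h5, ← map_mul, ← C_mul, inv_mul_cancel₀ h4, C_1, map_one]
    rw [h2, C_mul, map_mul, chiO, if_neg hN, map_intCast, map_intCast]
    push_cast
    ring

/-- **The monodromy conjecture for the twisted topological zeta functions of sparse polynomials
with affinely independent exponents, in the strong form (roots of the Bernstein-Sato polynomial,
with multiplicities).** `IsBFunction (sparse v a) b` says that `b(s) f ^ s = P(s) f ^ (s + 1)` for a
differential operator `P(s)`; the Bernstein-Sato polynomial `b_f` is by definition the monic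
polynomial `b` of this kind of least degree. `R` is any smooth fan with support the positive
orthant on which the ideal `(x ^ (v j))_j` becomes principal. -/
theorem result {r N : ℕ} (hr : 2 ≤ r) (v : Fin r → Fin N → ℕ) (a : Fin r → ℂ)
    (hv : AffineIndependent ℚ (fun j => (fun i => (v j i : ℚ) : Fin N → ℚ)))
    (hv0 : ∀ j, v j ≠ 0) (ha : ∀ j, a j ≠ 0) (R : SmoothFan N) (hR : Principal v R)
    (b : ℂ[X]) (hb : IsBFunction (sparse v a) b) (e : ℕ) (he : 1 ≤ e) :
    (∃ P : ℂ[X], algebraMap ℂ[X] (RatFunc ℂ) b * topZetaTwisted v R e =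
      algebraMap ℂ[X] (RatFunc ℂ) P) ∧
    (2 ≤ e → ∃ P : ℂ[X], algebraMap ℂ[X] (RatFunc ℂ) b * topZetaTwisted v R e =
      algebraMap ℂ[X] (RatFunc ℂ) ((X + 1) * P)) := by
  have : NeZero r := ⟨by omega⟩
  have h2 : 2 ≤ e → ∃ P : ℂ[X], algebraMap ℂ[X] (RatFunc ℂ) b * topZetaTwisted v R e =
      algebraMap ℂ[X] (RatFunc ℂ) ((X + 1) * P) := by
    intro he2
    obtain ⟨p, rfl, hp⟩ := Pool.Agent.W525.SM.taskA v a b hr hv ha hb
    obtain ⟨P, hP⟩ := Pool.Agent.W30.TW.main_tw v hv R hR e he2 p hp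
    refine ⟨P, ?_⟩
    rw [twisted_two v R e he2, map_mul, mul_assoc, hP, map_mul]
  refine ⟨?_, h2⟩
  rcases Nat.lt_or_ge e 2 with h | h
  · obtain rfl : e = 1 := by omega
    obtain ⟨P, hP⟩ := Pool.Agent.W425.SM.main hr v a hv hv0 ha R hR b hb
    obtain ⟨c, hc⟩ := twisted_one v hv0 R hR
    refine ⟨P + b * C c, ?_⟩
    rw [hc, mul_add, hP, map_add, map_mul]
  · obtain ⟨P, hP⟩ := h2 h
    exact ⟨_, hP⟩

end Pool.Agent.Results.MP_b22d1f_ag.SparseTwisted
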